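import Pool.Agent.H93.CP.Targets2

/-!
# Board cpt_modules, row NAR
-/

set_option autoImplicit false

open Set Filter Topology Pool.Agent.H93.CP

namespace Pool.Agent.H60.CPT

/-- subgroups of non-archimedean groups -/
lemma nar_sub {L : Type} [Group L] [TopologicalSpace L] (hL : NonArch L) (Γ : Subgroup L) :
    NonArch Γ := by
  intro U hU
  rw [nhds_subtype_eq_comap, mem_comap] at hU
  obtain ⟨W, hW, hWU⟩ := hU
  obtain ⟨V, hV, hVW⟩ := hL W hW
  refine ⟨V.comap Γ.subtype, ?_, ?_⟩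
  · exact hV.preimage continuous_subtype_val
  · intro x hx
    exact hWU (hVW hx)

/-- the case in which the space is empty -/
lemma nar_empty (hXOR : T_XOR) (G X : Type) [Group G] [MulAction G X] [MeasurableSpace X]
    [IsEmpty X] : ∃ Δ : Subgroup (HC (ℕ → Bool) Unit),
      IsClosed (Δ : Set (HC (ℕ → Bool) Unit)) ∧
      (CMO Δ (ℕ → Bool) ↔ CMO G X) ∧ (PMO Δ (ℕ → Bool) ↔ PMO G X) := by
  obtain ⟨τ, -, hτ⟩ := hXOR
  refine ⟨⊤, ?_, ?_, ?_⟩
  · rw [Subgroup.coe_top]
    exact isClosed_univ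
  · constructor
    · intro _
      exact ⟨∅, countable_empty, fun x => isEmptyElim x⟩
    · intro _
      refine ⟨{fun _ => false}, countable_singleton _, fun x => ?_⟩
      refine ⟨(⟨τ x, Subgroup.mem_top _⟩ : (⊤ : Subgroup (HC (ℕ → Bool) Unit)))⁻¹, ?_⟩
      rw [mem_singleton_iff, inv_smul_eq_iff]
      exact (hτ x).symm
  · constructor
    · rintro ⟨f, -, hf⟩
      exfalso
      have h1 : (fun _ : ℕ => false) ≠ (fun _ : ℕ => true) := by
        intro h
        exact absurd (congrFun h 0) (by decide)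
      refine hf _ _ h1 ((⟨τ (f fun _ => true), Subgroup.mem_top _⟩ :
        (⊤ : Subgroup (HC (ℕ → Bool) Unit))) *
        (⟨τ (f fun _ => false), Subgroup.mem_top _⟩ :
        (⊤ : Subgroup (HC (ℕ → Bool) Unit)))⁻¹) ?_
      have h2 : (⟨τ (f fun _ => false), Subgroup.mem_top _⟩ :
        (⊤ : Subgroup (HC (ℕ → Bool) Unit)))⁻¹ • (f fun _ => false) =
          (fun _ : ℕ => false) := by
        rw [inv_smul_eq_iff]
        exact (hτ _).symm
      rw [mul_smul, h2]
      exact hτ _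
    · rintro ⟨f, -, -⟩
      exact isEmptyElim (f fun _ => false)

/-- NAR: closed subgroups of the homeomorphism group of the Cantor space are the whole conjecture
for non-archimedean groups. -/
theorem pf_NAR (hSYS : T_SYS) (hPCO : T_PCO) (hHTG : T_HTG) (hHPO : T_HPO) (hHNA : T_HNA)
    (hGCL : T_GCL) (hTRC : T_TRC) (hTPA : T_TPA) (hTPB : T_TPB) (hNCA : T_NCA) (hXOR : T_XOR) :
    T_NAR := by
  intro G X _ _ _ _ _ _ _ _ _ _ hG
  rcases isEmpty_or_nonempty X with hX | hX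
  · exact nar_empty hXOR G X
  obtain ⟨Y⟩ := hSYS G X
  obtain ⟨i1, i2, i3, i4, i5, -⟩ := hPCO G Y.S
  haveI := i1
  haveI := i2
  haveI := i3
  haveI := i4
  haveI := i5
  obtain ⟨j1, j2, -⟩ := hHTG Y.S.Path G
  haveI := j1
  haveI : PolishSpace (HC Y.S.Path G) := hHPO Y.S.Path G
  haveI : PolishSpace Y.Γ := (hGCL G X Y).polishSpace
  letI : MeasurableSpace Y.S.Path := borel _
  haveI : BorelSpace Y.S.Path := ⟨rfl⟩
  have hcont : Continuous (fun p : Y.Γ × Y.S.Path => p.1 • p.2) := by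
    have h1 : (fun p : Y.Γ × Y.S.Path => p.1 • p.2) =
        (fun p : HC Y.S.Path G × Y.S.Path => p.1.h p.2) ∘
          (fun p : Y.Γ × Y.S.Path => ((p.1 : HC Y.S.Path G), p.2)) := rfl
    rw [h1]
    exact j2.comp ((continuous_subtype_val.comp continuous_fst).prodMk continuous_snd)
  obtain ⟨Δ, hΔ, e1, e2⟩ := hNCA Y.S.Path Y.Γ hcont (nar_sub (hHNA Y.S.Path G hG) Y.Γ)
  exact ⟨Δ, hΔ, e1.trans (hTRC G X Y), e2.trans ⟨hTPB G X Y, hTPA G X Y⟩⟩

end Pool.Agent.H60.CPT
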