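import Pool.Agent.H93.CP.Targets2

/-!
# Board cpt_modules, row PCL
-/

set_option autoImplicit false

open Set Filter Topology Pool.Agent.H93.CP

namespace Pool.Agent.H60.CPT

/-- a Polish group which is dense in a Polish group is the whole group -/
lemma pcl_dense {Γ M : Type} [TopologicalSpace Γ] [Group Γ] [IsTopologicalGroup Γ] [PolishSpace Γ]
    [TopologicalSpace M] [Group M] [IsTopologicalGroup M] [PolishSpace M] (φ : Γ →* M)
    (hi : IsInducing φ) (hinj : Function.Injective φ) (hd : DenseRange φ) :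
    Function.Surjective φ := by
  borelize M
  have hm : MeasurableSet (range φ) :=
    MeasureTheory.measurableSet_range_of_continuous_injective hi.continuous hinj
  -- the range is not meagre
  have hnm : ¬ IsMeagre (range φ) := by
    intro h
    rw [isMeagre_iff_countable_union_isNowhereDense] at h
    obtain ⟨S, hS, hSc, hRS⟩ := h
    have h1 : ∀ t ∈ S, IsNowhereDense (φ ⁻¹' t) := by
      intro t ht
      have h2 := hS t ht
      unfold IsNowhereDense at h2 ⊢
      rw [Set.eq_empty_iff_forall_notMem]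
      intro x hx
      obtain ⟨V, hV, hVo, hxV⟩ := mem_interior.1 hx
      obtain ⟨W, hW, rfl⟩ := hi.isOpen_iff.1 hVo
      have h3 : W ⊆ closure t := by
        intro w hw
        rw [mem_closure_iff]
        intro O hO hwO
        obtain ⟨z, hzO, hzW⟩ := hd.exists_mem_open (hO.inter hW) ⟨w, hwO, hw⟩
        obtain ⟨z', hz', hz't⟩ := mem_closure_iff.1 (hV hzW) (φ ⁻¹' O) (hO.preimage hi.continuous)
          hzO
        exact ⟨φ z', hz', hz't⟩
      have h4 : φ x ∈ interior (closure t) := mem_interior.2 ⟨W, h3, hW, hxV⟩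
      rw [h2] at h4
      exact h4
    have h2 : IsMeagre (univ : Set Γ) := by
      rw [isMeagre_iff_countable_union_isNowhereDense]
      refine ⟨(fun t => φ ⁻¹' t) '' S, ?_, hSc.image _, ?_⟩
      · rintro _ ⟨t, ht, rfl⟩
        exact h1 t ht
      · intro x _
        obtain ⟨t, ht, hxt⟩ := hRS ⟨x, rfl⟩
        exact ⟨φ ⁻¹' t, ⟨t, ht, rfl⟩, hxt⟩
    exact not_isMeagre_of_isOpen isOpen_univ ⟨1, mem_univ _⟩ h2
  obtain ⟨U, hU, hRU⟩ := hm.residualEq_isOpen
  have hUne : U.Nonempty := by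
    rw [Set.nonempty_iff_ne_empty]
    rintro rfl
    refine hnm ?_
    have h1 : ∀ᶠ x in residual M, (x ∈ range φ ↔ x ∈ (∅ : Set M)) :=
      hRU.mem_iff
    refine mem_of_superset h1 fun x hx => ?_
    exact fun h => (hx.1 h)
  have hev : ∀ᶠ x in residual M, (x ∈ range φ ↔ x ∈ U) := hRU.mem_iff
  obtain ⟨u, hu⟩ := hUne
  intro x
  -- an element of the range near x
  obtain ⟨r, hr⟩ := hd.exists_mem_open (s := {r : M | x⁻¹ * (r * u) ∈ U})
    (hU.preimage (by fun_prop)) ⟨x, by
      change x⁻¹ * (x * u) ∈ U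
      rwa [inv_mul_cancel_left]⟩
  have hr' : x⁻¹ * (φ r * u) ∈ U := hr
  have ht : ∀ m : M, Tendsto (fun y : M => m * y) (residual M) (residual M) := fun m =>
    tendsto_residual_of_isOpenMap (Homeomorph.mulLeft m).continuous (Homeomorph.mulLeft m).isOpenMap
  have e1 := (ht (φ r)⁻¹).eventually hev
  have e2 := (ht x⁻¹).eventually hev
  have hdense := dense_of_mem_residual (e1.and e2)
  obtain ⟨y, hy1, hy2⟩ := hdense.inter_open_nonempty
    {y : M | (φ r)⁻¹ * y ∈ U ∧ x⁻¹ * y ∈ U}
    ((hU.preimage (continuous_const_mul ((φ r)⁻¹ : M))).inter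
      (hU.preimage (continuous_const_mul (x⁻¹ : M)))) ⟨φ r * u, by
        refine ⟨?_, hr'⟩
        change (φ r)⁻¹ * (φ r * u) ∈ U
        rwa [inv_mul_cancel_left]⟩
  obtain ⟨a, ha⟩ := hy2.1.2 hy1.1
  obtain ⟨b, hb⟩ := hy2.2.2 hy1.2
  refine ⟨r * a * b⁻¹, ?_⟩
  rw [map_mul, map_mul, map_inv, ha, hb]
  group

/-- PCL: a Polish subgroup of a Polish group is closed. -/
theorem pf_PCL : T_PCL := by
  intro Γ L _ _ _ _ _ _ _ _ φ hi hinj
  let M : Subgroup L := φ.range.topologicalClosure
  have hMc : IsClosed (M : Set L) := Subgroup.isClosed_topologicalClosure _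
  haveI : PolishSpace M := hMc.polishSpace
  have hmem : ∀ γ, φ γ ∈ M := fun γ => Subgroup.le_topologicalClosure _ ⟨γ, rfl⟩
  let ψ : Γ →* M := φ.codRestrict M hmem
  have hψ : IsInducing ψ := by
    have h1 : (Subtype.val ∘ ψ : Γ → L) = φ := rfl
    refine IsInducing.of_comp (Continuous.subtype_mk hi.continuous _) continuous_subtype_val ?_
    rw [h1]
    exact hi
  have hψi : Function.Injective ψ := by
    intro a b h
    exact hinj (congrArg Subtype.val h)
  have hψd : DenseRange ψ := by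
    intro m
    rw [mem_closure_iff]
    rintro O hO hm
    obtain ⟨W, hW, rfl⟩ := isOpen_induced_iff.1 hO
    have h1 : (m : L) ∈ closure (φ.range : Set L) := m.2
    obtain ⟨_, hz, ⟨γ, rfl⟩⟩ := mem_closure_iff.1 h1 W hW hm
    exact ⟨ψ γ, hz, ⟨γ, rfl⟩⟩
  have hs := pcl_dense ψ hψ hψi hψd
  have h2 : (φ.range : Set L) = M := by
    refine Set.Subset.antisymm (Subgroup.le_topologicalClosure _) fun x hx => ?_
    obtain ⟨γ, hγ⟩ := hs ⟨x, hx⟩
    exact ⟨γ, congrArg Subtype.val hγ⟩
  rw [h2]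
  exact hMc

end Pool.Agent.H60.CPT
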